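import Pool.Agent.W712.WR.All

/-!
Permanence of all weakly reversible mass-action systems.
-/

set_option autoImplicit false

namespace Pool.Agent.Results.MP_210c79_an.Permanence

/-- The mass-action vector field of the edge set `E` (an edge is a pair (source, target) of real
vectors) with the rate constants `k`. -/
noncomputable def field {n : ℕ} (E : Finset ((Fin n → ℝ) × (Fin n → ℝ)))
    (k : (Fin n → ℝ) × (Fin n → ℝ) → ℝ) (x : Fin n → ℝ) : Fin n → ℝ :=
  ∑ e ∈ E, (k e * ∏ i, x i ^ (e.1 i)) • (e.2 - e.1)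

/-- Every edge of `E` lies on a directed cycle: its source can be reached from its target. -/
def WeaklyReversible {n : ℕ} (E : Finset ((Fin n → ℝ) × (Fin n → ℝ))) : Prop :=
  ∀ e ∈ E, Relation.ReflTransGen (fun u v => (u, v) ∈ E) e.2 e.1

/-- The stoichiometric compatibility class of `x₀`: the positive vectors `z` with `z - x₀` in the
span of the edge vectors. -/
def compatClass {n : ℕ} (E : Finset ((Fin n → ℝ) × (Fin n → ℝ))) (x₀ : Fin n → ℝ) :
    Set (Fin n → ℝ) :=
  {z | (∀ i, 0 < z i) ∧ z - x₀ ∈ Submodule.span ℝ {v | ∃ e ∈ E, v = e.2 - e.1}}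

/-- For every finite weakly reversible edge set in `ℝⁿ`, all positive rate constants and every
`x₀ > 0` there is a compact subset `M` of the compatibility class of `x₀` such that for every `z`
in the class the solution `y` with `y 0 = z` exists for all `t ≥ 0`, stays in the class, is the
only solution on any interval `J ∋ 0` of nonnegative times, and lies in `M` for all sufficiently
large `t`. -/
theorem result (n : ℕ) (E : Finset ((Fin n → ℝ) × (Fin n → ℝ))) (hE : WeaklyReversible E)
    (k : (Fin n → ℝ) × (Fin n → ℝ) → ℝ) (hk : ∀ e ∈ E, 0 < k e)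
    (x₀ : Fin n → ℝ) (hx₀ : ∀ i, 0 < x₀ i) :
    ∃ M : Set (Fin n → ℝ), IsCompact M ∧ M ⊆ compatClass E x₀ ∧
      ∀ z ∈ compatClass E x₀, ∃ y : ℝ → Fin n → ℝ, y 0 = z ∧
        (∀ t, 0 ≤ t → y t ∈ compatClass E x₀ ∧
          HasDerivWithinAt y (field E k (y t)) (Set.Ici 0) t) ∧
        (∀ (J : Set ℝ) (x : ℝ → Fin n → ℝ), J.OrdConnected → (0 : ℝ) ∈ J → J ⊆ Set.Ici 0 →
          x 0 = z → (∀ t ∈ J, (∀ i, 0 < x t i) ∧ HasDerivWithinAt x (field E k (x t)) J t) →
          ∀ t ∈ J, x t = y t) ∧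
        ∃ t₀ : ℝ, ∀ t, t₀ ≤ t → y t ∈ M :=
  W712.WR.perm210' n E hE k hk x₀ hx₀

end Pool.Agent.Results.MP_210c79_an.Permanence
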